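import Pool.Agent.TH235.PP.Quant
import Pool.Agent.TH235.PP.Ener

/-!
PEPS approximation of gapped ground states on the torus, with no spectral hypothesis.

Part (A): amplification. If some PEPS has overlap at least `η` with the ground state, then the ground
state is approximated within `ε` by a PEPS whose bond dimension is larger at most by the factor
`exp (C (log L + log (1/(η ε)))^2)`, where `C` depends only on the local dimension, the interaction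
and the gap.

Part (B): for a gapped family the following are equivalent: the conclusion of the open problem for
every `c`, for one `c`, with errors smaller than every `exp (-(log L)^m)`, the existence of a PEPS of
quasi-polynomial bond dimension with overlap at least `exp (-C (log L)^k)`, the same for locally
purified mixed states, the existence of locally purified mixed states of quasi-polynomial bond
dimension whose energy is below `E_0 + Δ` by `Δ exp (-C (log L)^k)`, and an overlap of at least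
`exp (-C (log L)^k)` with the ground states of a gapped family which satisfies the conclusion of the
open problem.
-/

set_option autoImplicit false

open scoped BigOperators Matrix
open Finset Pool.Agent.TH235.PP

namespace Pool.Agent.Results.MP_953b23_mp.OverlapBoosting

/-- A gapped family with unique ground state: `h` is a Hermitian interaction on the `R × R` box,
`Δ > 0`, and for all large `L` the unit vector `Ψ L` spans the ground space of the Hamiltonian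
`ham h L` (the sum of all translates of `h` on the `L × L` torus), whose gap is at least `Δ`. -/
structure GappedFamily {d R : ℕ} (h : BoxOp d R) (Δ : ℝ) (Ψ : ∀ L : ℕ, (Site L → Fin d) → ℂ) :
    Prop where
  range_pos : 0 < R
  herm : h.IsHermitian
  gap_pos : 0 < Δ
  ground : ∃ L₀ : ℕ, ∀ (L : ℕ) [NeZero L], L₀ ≤ L →
    normSq (Ψ L) = 1 ∧ IsGappedGround (ham h L) Δ (Ψ L)

/-- For all large `L` the vector `Ψ L` is approximated within `δ L` in Hilbert-space norm by a PEPS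
of bond dimension at most `exp (C (log L)^k)`. -/
def Approx {d : ℕ} (Ψ : ∀ L : ℕ, (Site L → Fin d) → ℂ) (k : ℕ) (C : ℝ) (δ : ℕ → ℝ) : Prop :=
  ∃ L₀ : ℕ, ∀ (L : ℕ) [NeZero L], L₀ ≤ L → ∃ (D : ℕ) (ψ : (Site L → Fin d) → ℂ),
    (D : ℝ) ≤ Real.exp (C * Real.log L ^ k) ∧ IsPEPS D ψ ∧
      Real.sqrt (normSq (ψ - Ψ L)) ≤ δ L

/-- For all large `L` some unit PEPS of bond dimension at most `exp (C (log L)^k)` has overlap at
least `exp (-C (log L)^k)` with `Ψ L`. -/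
def PureOverlap {d : ℕ} (Ψ : ∀ L : ℕ, (Site L → Fin d) → ℂ) (k : ℕ) (C : ℝ) : Prop :=
  ∃ L₀ : ℕ, ∀ (L : ℕ) [NeZero L], L₀ ≤ L → ∃ (D : ℕ) (φ : (Site L → Fin d) → ℂ),
    (D : ℝ) ≤ Real.exp (C * Real.log L ^ k) ∧ IsPEPS D φ ∧ normSq φ = 1 ∧
      Real.exp (-(C * Real.log L ^ k)) ≤ ‖ip (Ψ L) φ‖

/-- A local purification of bond dimension `D`: a PEPS whose physical index at each site is a pair
`(i, j)`, with `i : Fin d` the physical and `j : Fin a` the ancilla index. `X t` is the component in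
which the ancillas are in the basis state `t`; the density operator is, up to normalisation,
`∑ t, |X t⟩⟨X t|`. -/
def IsPurified {d a L : ℕ} [NeZero L] (D : ℕ) (X : (Site L → Fin a) → (Site L → Fin d) → ℂ) : Prop :=
  ∃ A : Site L → Fin d → Fin a → Fin D → Fin D → Fin D → Fin D → ℂ,
    ∀ t, X t = contract fun x i => A x i (t x)

/-- For all large `L` some locally purified mixed state of bond dimension at most
`exp (C (log L)^k)` has fidelity at least `exp (-C (log L)^k)` with `Ψ L`. -/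
def MixedOverlap {d : ℕ} (Ψ : ∀ L : ℕ, (Site L → Fin d) → ℂ) (k : ℕ) (C : ℝ) : Prop :=
  ∃ L₀ : ℕ, ∀ (L : ℕ) [NeZero L], L₀ ≤ L →
    ∃ (a D : ℕ) (X : (Site L → Fin a) → (Site L → Fin d) → ℂ),
      (D : ℝ) ≤ Real.exp (C * Real.log L ^ k) ∧ IsPurified D X ∧ 0 < ∑ t, normSq (X t) ∧
        Real.exp (-(C * Real.log L ^ k)) * ∑ t, normSq (X t) ≤ ∑ t, ‖ip (Ψ L) (X t)‖ ^ 2

/-- For all large `L` some locally purified mixed state of bond dimension at most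
`exp (C (log L)^k)` has energy at most `E_0 + Δ (1 - exp (-C (log L)^k))`. -/
def LowEnergy {d R : ℕ} (h : BoxOp d R) (Δ : ℝ) (Ψ : ∀ L : ℕ, (Site L → Fin d) → ℂ) (k : ℕ)
    (C : ℝ) : Prop :=
  ∃ L₀ : ℕ, ∀ (L : ℕ) [NeZero L], L₀ ≤ L →
    ∃ (a D : ℕ) (X : (Site L → Fin a) → (Site L → Fin d) → ℂ),
      (D : ℝ) ≤ Real.exp (C * Real.log L ^ k) ∧ IsPurified D X ∧ 0 < ∑ t, normSq (X t) ∧
        ∑ t, (ip (X t) (ham h L *ᵥ X t)).re ≤
          ((ip (Ψ L) (ham h L *ᵥ Ψ L)).re + Δ * (1 - Real.exp (-(C * Real.log L ^ k)))) *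
            ∑ t, normSq (X t)

section aux

variable {d : ℕ}

theorem sqrt_normSq {n : Type*} [Fintype n] [DecidableEq n] (x : n → ℂ) :
    Real.sqrt (normSq x) = nr x := by
  rw [← nr_sq, Real.sqrt_sq (nr_nonneg x)]

theorem normSq_nonneg {n : Type*} [Fintype n] (x : n → ℂ) : 0 ≤ normSq x :=
  Finset.sum_nonneg fun _ _ => by positivity

theorem log_ge_one {L : ℕ} (hL : 3 ≤ L) : 1 ≤ Real.log L := by
  have h1 : Real.exp 1 ≤ L := by
    have h2 := Real.exp_one_lt_d9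
    have h3 : (3 : ℝ) ≤ L := by exact_mod_cast hL
    linarith
  exact (Real.le_log_iff_exp_le (by linarith [Real.exp_pos 1])).2 h1

/-- normalisation -/
theorem unit_of {L : ℕ} [NeZero L] {D : ℕ} {φ : (Site L → Fin d) → ℂ} (h : IsPEPS D φ)
    (h0 : 0 < nr φ) :
    IsPEPS D (((nr φ)⁻¹ : ℂ) • φ) ∧ normSq (((nr φ)⁻¹ : ℂ) • φ) = 1 ∧
      ∀ Ψ : (Site L → Fin d) → ℂ, ‖ip Ψ (((nr φ)⁻¹ : ℂ) • φ)‖ = ‖ip Ψ φ‖ / nr φ := by
  have hn : ‖((nr φ)⁻¹ : ℂ)‖ = (nr φ)⁻¹ := by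
    rw [norm_inv, Complex.norm_real, Real.norm_eq_abs, abs_of_pos h0]
  refine ⟨h.smul _, ?_, ?_⟩
  · rw [← nr_sq, nr_smul, hn, inv_mul_cancel₀ h0.ne', one_pow]
  · intro Ψ
    rw [ip_smul_right, norm_mul, hn, div_eq_inv_mul]

/-- a vector within `1/4` of the unit vector `Ψ` -/
theorem near {n : Type*} [Fintype n] [DecidableEq n] (Ψ ψ : n → ℂ) (hΨ : normSq Ψ = 1)
    (h : nr (ψ - Ψ) ≤ 1 / 4) : 3 / 4 ≤ nr ψ ∧ nr ψ ≤ 5 / 4 ∧ 3 / 4 ≤ ‖ip Ψ ψ‖ := by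
  have h1 : nr Ψ = 1 := nr_one Ψ hΨ
  have h2 : nr ψ ≤ nr (ψ - Ψ) + nr Ψ := by
    have := nr_add (ψ - Ψ) Ψ
    rwa [sub_add_cancel] at this
  have h3 : nr Ψ ≤ nr (ψ - Ψ) + nr ψ := by
    have := nr_add ((-1 : ℂ) • (ψ - Ψ)) ψ
    rw [nr_smul] at this
    have e : (-1 : ℂ) • (ψ - Ψ) + ψ = Ψ := by rw [neg_smul, one_smul]; abel
    rw [e] at this
    simpa using this
  have h4 : ip Ψ ψ = ip Ψ (ψ - Ψ) + 1 := by
    rw [← ip_self_one Ψ hΨ, ip_eq, ip_eq, ip_eq, ← inner_add_right, ← WithLp.toLp_add,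
      sub_add_cancel]
  have h5 : ‖ip Ψ (ψ - Ψ)‖ ≤ 1 / 4 := by
    rw [ip_eq]
    refine (norm_inner_le_norm _ _).trans ?_
    have k1 : ‖(WithLp.toLp 2 Ψ : EuclideanSpace ℂ n)‖ = 1 := h1
    rw [k1, one_mul]
    exact h
  have h6 : (1 : ℝ) ≤ ‖ip Ψ (ψ - Ψ)‖ + ‖ip Ψ ψ‖ := by
    have e : (1 : ℂ) = -ip Ψ (ψ - Ψ) + ip Ψ ψ := by rw [h4]; ring
    have := norm_add_le (-ip Ψ (ψ - Ψ)) (ip Ψ ψ)
    rw [← e, norm_one, norm_neg] at this
    exact this
  exact ⟨by linarith, by linarith, by linarith⟩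

end aux

section steps

variable {d R : ℕ} {h : BoxOp d R} {Δ : ℝ} {Ψ : ∀ L : ℕ, (Site L → Fin d) → ℂ}

/-- amplification for families -/
theorem pure_to_super (hF : GappedFamily h Δ Ψ) (hP : ∃ k C, PureOverlap Ψ k C) (m : ℕ) :
    ∃ k C, Approx Ψ k C fun L => Real.exp (-(Real.log L ^ m)) := by
  obtain ⟨R', rfl⟩ : ∃ R', R = R' + 1 := ⟨R - 1, by have := hF.range_pos; omega⟩
  obtain ⟨C, hC, hq⟩ := quant d R' h hF.herm Δ hF.gap_pos
  obtain ⟨L₁, hL₁⟩ := hF.ground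
  obtain ⟨k, C', L₂, hL₂⟩ := hP
  refine ⟨2 * (k + m + 1), |C'| + C * (2 + |C'|) ^ 2, max 3 (max L₁ L₂), ?_⟩
  intro L _ hL
  have hL3 : 3 ≤ L := (le_max_left _ _).trans hL
  obtain ⟨hn, hg⟩ := hL₁ L (((le_max_left _ _).trans (le_max_right _ _)).trans hL)
  obtain ⟨D0, φ, hD0, hφ, hφ1, hov⟩ :=
    hL₂ L (((le_max_right _ _).trans (le_max_right _ _)).trans hL)
  have hl1 := log_ge_one hL3
  obtain ⟨D, ψ, hD, hψ, herr⟩ := hq L (by omega) (Ψ L) hn hg D0 φ hφ hφ1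
    (Real.exp (-(C' * Real.log L ^ k))) (Real.exp (-(Real.log L ^ m))) (Real.exp_pos _) hov
    (Real.exp_pos _) (Real.exp_le_one_iff.2 (by
      have : 0 ≤ Real.log L ^ m := by positivity
      linarith))
  refine ⟨D, ψ, hD.trans ?_, hψ, by rw [sqrt_normSq]; exact herr⟩
  have hlog : Real.log (1 / (Real.exp (-(C' * Real.log L ^ k)) *
      Real.exp (-(Real.log L ^ m)))) = C' * Real.log L ^ k + Real.log L ^ m := by
    rw [← Real.exp_add, one_div, ← Real.exp_neg, Real.log_exp]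
    ring
  rw [hlog]
  generalize Real.log L = l at hl1 hD0 ⊢
  have hl0 : 0 ≤ l := by linarith
  set K := k + m + 1 with hK
  have hk1 : l ^ k ≤ l ^ K := pow_le_pow_right₀ hl1 (by omega)
  have hm1 : l ^ m ≤ l ^ K := pow_le_pow_right₀ hl1 (by omega)
  have h11 : l ≤ l ^ K := by
    calc l = l ^ 1 := (pow_one l).symm
      _ ≤ l ^ K := pow_le_pow_right₀ hl1 (by omega)
  have h2K : l ^ K ≤ l ^ (2 * K) := pow_le_pow_right₀ hl1 (by omega)
  have hC'k : C' * l ^ k ≤ |C'| * l ^ K :=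
    mul_le_mul (le_abs_self _) hk1 (by positivity) (abs_nonneg _)
  have hC'k2 : -(|C'| * l ^ K) ≤ C' * l ^ k := by
    have h3 : -(C' * l ^ k) ≤ |C'| * l ^ K := by
      rw [← neg_mul]
      exact mul_le_mul (neg_le_abs _) hk1 (by positivity) (abs_nonneg _)
    linarith
  have hm0 : 0 ≤ l ^ m := by positivity
  have hsq : (l + (C' * l ^ k + l ^ m)) ^ 2 ≤ ((2 + |C'|) * l ^ K) ^ 2 := by
    apply sq_le_sq'
    · nlinarith only [hC'k2, hm0, hl0, h11]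
    · nlinarith only [hC'k, hm1, h11]
  calc (D0 : ℝ) * Real.exp (C * (l + (C' * l ^ k + l ^ m)) ^ 2)
      ≤ Real.exp (|C'| * l ^ (2 * K)) * Real.exp (C * ((2 + |C'|) * l ^ K) ^ 2) := by
        refine mul_le_mul (hD0.trans (Real.exp_le_exp.2 ?_)) (Real.exp_le_exp.2 ?_)
          (Real.exp_pos _).le (Real.exp_pos _).le
        · exact hC'k.trans (mul_le_mul_of_nonneg_left h2K (abs_nonneg _))
        · exact mul_le_mul_of_nonneg_left hsq hC.le
    _ = Real.exp ((|C'| + C * (2 + |C'|) ^ 2) * l ^ (2 * K)) := by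
        rw [← Real.exp_add]
        congr 1
        rw [mul_pow, ← pow_mul, mul_comm K 2]
        ring

/-- super-polynomially small errors give the conclusion of the problem -/
theorem super_to_all (hS : ∀ m : ℕ, ∃ k C, Approx Ψ k C fun L => Real.exp (-(Real.log L ^ m)))
    (c : ℝ) : ∃ k C, Approx Ψ k C fun L => (L : ℝ) ^ (-c) := by
  obtain ⟨k, C, L₀, hL₀⟩ := hS 2
  refine ⟨k, C, max L₀ (⌈Real.exp (max c 0)⌉₊ + 1), ?_⟩
  intro L _ hL
  obtain ⟨D, ψ, h1, h2, h3⟩ := hL₀ L ((le_max_left _ _).trans hL)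
  refine ⟨D, ψ, h1, h2, h3.trans ?_⟩
  have hL2 : Real.exp (max c 0) ≤ L := by
    have h4 : ⌈Real.exp (max c 0)⌉₊ + 1 ≤ L := (le_max_right _ _).trans hL
    calc Real.exp (max c 0) ≤ ⌈Real.exp (max c 0)⌉₊ := Nat.le_ceil _
      _ ≤ L := by exact_mod_cast (Nat.le_succ _).trans h4
  have hL0 : (0 : ℝ) < L := lt_of_lt_of_le (Real.exp_pos _) hL2
  have hlog : max c 0 ≤ Real.log L := (Real.le_log_iff_exp_le hL0).2 hL2
  have hc : c ≤ Real.log L := (le_max_left _ _).trans hlog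
  have h0 : 0 ≤ Real.log L := (le_max_right _ _).trans hlog
  beta_reduce
  rw [Real.rpow_def_of_pos hL0]
  apply Real.exp_le_exp.2
  nlinarith only [mul_le_mul_of_nonneg_left hc h0]

/-- `L^{-c}` is eventually small -/
theorem rpow_small (c : ℝ) (hc : 0 < c) (u : ℝ) (hu : 0 < u) :
    ∃ L₀ : ℕ, ∀ L : ℕ, L₀ ≤ L → (L : ℝ) ^ (-c) ≤ u := by
  have h1 : Filter.Tendsto (fun L : ℕ => (L : ℝ) ^ (-c)) Filter.atTop (nhds 0) :=
    (tendsto_rpow_neg_atTop hc).comp tendsto_natCast_atTop_atTop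
  have h2 := h1.eventually (gt_mem_nhds hu)
  rw [Filter.eventually_atTop] at h2
  obtain ⟨L₀, h⟩ := h2
  exact ⟨L₀, fun L hL => (h L hL).le⟩

theorem exp_neg_one_lt : Real.exp (-1) ≤ 2 / 5 := by
  rw [Real.exp_neg, inv_le_comm₀ (Real.exp_pos 1) (by norm_num)]
  have := Real.exp_one_gt_d9
  linarith

/-- one exponent gives a good overlap -/
theorem one_to_pure (hF : GappedFamily h Δ Ψ) {c : ℝ} (hc : 0 < c) {k : ℕ} {C : ℝ}
    (hA : Approx Ψ k C fun L => (L : ℝ) ^ (-c)) : ∃ k C, PureOverlap Ψ k C := by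
  obtain ⟨L₁, hL₁⟩ := hF.ground
  obtain ⟨L₂, hL₂⟩ := hA
  obtain ⟨L₃, hL₃⟩ := rpow_small c hc (1 / 4) (by norm_num)
  refine ⟨k, |C| + 1, max 3 (max L₁ (max L₂ L₃)), ?_⟩
  intro L _ hL
  simp only [max_le_iff] at hL
  obtain ⟨h3, ha, hb, hc'⟩ := hL
  obtain ⟨hn, -⟩ := hL₁ L ha
  obtain ⟨D, ψ, hD, hψ, herr⟩ := hL₂ L hb
  rw [sqrt_normSq] at herr
  obtain ⟨n1, n2, n3⟩ := near (Ψ L) ψ hn (herr.trans (hL₃ L hc'))
  obtain ⟨u1, u2, u3⟩ := unit_of hψ (by linarith)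
  have hl1 := log_ge_one h3
  have hlk : 1 ≤ Real.log L ^ k := one_le_pow₀ hl1
  refine ⟨D, _, hD.trans (Real.exp_le_exp.2 ?_), u1, u2, ?_⟩
  · have := le_abs_self C
    nlinarith only [this, hlk, abs_nonneg C]
  · rw [u3]
    have h5 : (3 : ℝ) / 5 ≤ ‖ip (Ψ L) ψ‖ / nr ψ := by
      rw [le_div_iff₀ (by linarith)]
      linarith
    refine le_trans ?_ h5
    have h6 : Real.exp (-((|C| + 1) * Real.log L ^ k)) ≤ Real.exp (-1) := by
      apply Real.exp_le_exp.2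
      nlinarith only [mul_nonneg (abs_nonneg C) (by linarith : (0 : ℝ) ≤ Real.log L ^ k), hlk]
    exact h6.trans (exp_neg_one_lt.trans (by norm_num))

/-- the conclusion of the problem gives low-energy states -/
theorem all_to_low (hF : GappedFamily h Δ Ψ)
    (hA : ∃ k C, Approx Ψ k C fun L => (L : ℝ) ^ (-(2 : ℝ))) : ∃ k C, LowEnergy h Δ Ψ k C := by
  obtain ⟨L₁, hL₁⟩ := hF.ground
  obtain ⟨k, C, L₂, hL₂⟩ := hA
  have hJ0 := nJ_nonneg h
  have hΔ := hF.gap_pos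
  obtain ⟨L₃, hL₃⟩ := rpow_small 2 (by norm_num) (min (1 / 4) (Δ / (16 * (nJ h + 1))))
    (lt_min (by norm_num) (by positivity))
  refine ⟨k, |C| + 1, max 3 (max L₁ (max L₂ L₃)), ?_⟩
  intro L _ hL
  simp only [max_le_iff] at hL
  obtain ⟨h3, ha, hb, hc'⟩ := hL
  obtain ⟨hn, hg⟩ := hL₁ L ha
  obtain ⟨D, ψ, hD, hψ, herr⟩ := hL₂ L hb
  rw [sqrt_normSq] at herr
  have hs := hL₃ L hc'
  obtain ⟨n1, n2, n3⟩ := near (Ψ L) ψ hn (herr.trans (hs.trans (min_le_left _ _)))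
  have hl1 := log_ge_one h3
  have hlk : 1 ≤ Real.log L ^ k := one_le_pow₀ hl1
  have hsum : ∀ f : ((Site L → Fin d) → ℂ) → ℝ,
      ∑ _t : Site L → Fin 1, f ψ = f ψ := by
    intro f
    rw [Finset.sum_const, Finset.card_univ]
    simp
  have hn9 : 9 / 16 ≤ normSq ψ := by
    rw [← nr_sq]
    nlinarith only [n1]
  refine ⟨1, D, fun _ => ψ, hD.trans (Real.exp_le_exp.2 ?_), ?_, ?_, ?_⟩
  · have := le_abs_self C
    nlinarith only [this, hlk, abs_nonneg C]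
  · obtain ⟨A, hA⟩ := hψ
    exact ⟨fun x i _ => A x i, fun _ => hA⟩
  · rw [hsum fun ψ => normSq ψ]
    linarith
  · rw [hsum fun ψ => normSq ψ, hsum fun ψ => (ip ψ (ham h L *ᵥ ψ)).re]
    have h4 := ener_upper (ham h L) (ham_herm h hF.herm) Δ (Ψ L) hn hg ψ
    have h5 := norm_ham (L := L) h
    refine h4.trans ?_
    have hLpos : (0 : ℝ) < L := by
      have : (3 : ℝ) ≤ L := by exact_mod_cast h3
      linarith
    have h7 : normSq (ψ - Ψ L) ≤ ((L : ℝ) ^ (-(2 : ℝ))) ^ 2 := by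
      rw [← nr_sq]
      exact pow_le_pow_left₀ (nr_nonneg _) herr 2
    have h8 : (L : ℝ) ^ (-(2 : ℝ)) * (L : ℝ) ^ 2 = 1 := by
      rw [Real.rpow_neg hLpos.le, Real.rpow_two]
      field_simp
    have h9 : 0 < (L : ℝ) ^ (-(2 : ℝ)) := Real.rpow_pos_of_pos hLpos _
    generalize (L : ℝ) ^ (-(2 : ℝ)) = ρ at *
    have h10 : Real.exp (-((|C| + 1) * Real.log L ^ k)) ≤ 2 / 5 := by
      refine le_trans (Real.exp_le_exp.2 ?_) exp_neg_one_lt
      nlinarith only [mul_nonneg (abs_nonneg C) (by linarith : (0 : ℝ) ≤ Real.log L ^ k), hlk]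
    have h11 : ρ * (16 * (nJ h + 1)) ≤ Δ := by
      have := hs.trans (min_le_right _ _)
      rwa [le_div_iff₀ (by positivity)] at this
    have h12 : 2 * (((L : ℝ) ^ 2) * nJ h) * ρ ^ 2 ≤ Δ / 8 := by
      have e : 2 * (((L : ℝ) ^ 2) * nJ h) * ρ ^ 2 = 2 * nJ h * ρ * (ρ * (L : ℝ) ^ 2) := by ring
      rw [e, h8, mul_one]
      nlinarith only [h11, h9]
    have hnn := normSq_nonneg (ψ - Ψ L)
    have hA0 := hJ0
    have h13 : 2 * (((L : ℝ) ^ 2) * nJ h) * normSq (ψ - Ψ L) ≤ Δ / 8 :=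
      le_trans (mul_le_mul_of_nonneg_left h7 (by positivity)) h12
    have h14 := mul_le_mul_of_nonneg_right (mul_le_mul_of_nonneg_left h5 (by norm_num : (0:ℝ) ≤ 2))
      hnn
    have h15 : Δ * (3 / 5) * (9 / 16) ≤
        Δ * (1 - Real.exp (-((|C| + 1) * Real.log L ^ k))) * normSq ψ := by
      refine mul_le_mul ?_ hn9 (by norm_num) ?_
      · exact mul_le_mul_of_nonneg_left (by linarith) hΔ.le
      · exact mul_nonneg hΔ.le (by linarith)
    rw [add_mul]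
    linarith

/-- low energy gives overlap -/
theorem low_to_mixed (hF : GappedFamily h Δ Ψ) (hA : ∃ k C, LowEnergy h Δ Ψ k C) :
    ∃ k C, MixedOverlap Ψ k C := by
  obtain ⟨L₁, hL₁⟩ := hF.ground
  obtain ⟨k, C, L₂, hL₂⟩ := hA
  refine ⟨k, C, max L₁ L₂, ?_⟩
  intro L _ hL
  obtain ⟨hn, hg⟩ := hL₁ L ((le_max_left _ _).trans hL)
  obtain ⟨a, D, X, h1, h2, h3, h4⟩ := hL₂ L ((le_max_right _ _).trans hL)
  refine ⟨a, D, X, h1, h2, h3, ?_⟩
  have h5 : ∑ t, ((ip (Ψ L) (ham h L *ᵥ Ψ L)).re * normSq (X t) +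
      Δ * (normSq (X t) - ‖ip (Ψ L) (X t)‖ ^ 2)) ≤ ∑ t, (ip (X t) (ham h L *ᵥ X t)).re :=
    Finset.sum_le_sum fun t _ =>
      gap_ineq (ham h L) (ham_herm h hF.herm) Δ hF.gap_pos (Ψ L) hn hg (X t)
  rw [Finset.sum_add_distrib, ← Finset.mul_sum, ← Finset.mul_sum, Finset.sum_sub_distrib] at h5
  have h6 := h5.trans h4
  have hΔ := hF.gap_pos
  have h7 : Δ * (Real.exp (-(C * Real.log L ^ k)) * ∑ t, normSq (X t)) ≤
      Δ * ∑ t, ‖ip (Ψ L) (X t)‖ ^ 2 := by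
    nlinarith only [h6]
  exact le_of_mul_le_mul_left h7 hΔ

/-- averaging over the ancilla basis -/
theorem mixed_to_pure (hA : ∃ k C, MixedOverlap Ψ k C) : ∃ k C, PureOverlap Ψ k C := by
  obtain ⟨k, C, L₂, hL₂⟩ := hA
  refine ⟨k, |C|, max 3 L₂, ?_⟩
  intro L _ hL
  have hL3 : 3 ≤ L := (le_max_left _ _).trans hL
  obtain ⟨a, D, X, h1, ⟨A, hA⟩, h3, h4⟩ := hL₂ L ((le_max_right _ _).trans hL)
  have hl1 := log_ge_one hL3
  have hlk : 0 ≤ Real.log L ^ k := by positivity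
  have hlC : C * Real.log L ^ k ≤ |C| * Real.log L ^ k :=
    mul_le_mul_of_nonneg_right (le_abs_self _) hlk
  obtain ⟨t, ht0, ht⟩ : ∃ t, 0 < normSq (X t) ∧
      Real.exp (-(C * Real.log L ^ k)) * normSq (X t) ≤ ‖ip (Ψ L) (X t)‖ ^ 2 := by
    by_contra hcon
    push Not at hcon
    have hle : ∀ t, ‖ip (Ψ L) (X t)‖ ^ 2 ≤ Real.exp (-(C * Real.log L ^ k)) * normSq (X t) := by
      intro t
      rcases (normSq_nonneg (X t)).lt_or_eq with h5 | h5
      · exact (hcon t h5).le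
      · have h6 : nr (X t) = 0 := by
          have := nr_sq (X t)
          rw [← h5] at this
          exact pow_eq_zero_iff (two_ne_zero) |>.1 this
        have h7 : ‖ip (Ψ L) (X t)‖ ≤ 0 := by
          rw [ip_eq]
          refine (norm_inner_le_norm _ _).trans ?_
          have k2 : ‖(WithLp.toLp 2 (X t) : EuclideanSpace ℂ (Site L → Fin d))‖ = 0 := h6
          rw [k2, mul_zero]
        have h8 : ‖ip (Ψ L) (X t)‖ = 0 := le_antisymm h7 (norm_nonneg _)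
        rw [h8, ← h5]
        simp
    obtain ⟨t, ht⟩ : ∃ t, 0 < normSq (X t) := by
      by_contra hc
      push Not at hc
      exact absurd h3 (not_lt.2 (Finset.sum_nonpos fun t _ => hc t))
    have hlt : ∑ t, ‖ip (Ψ L) (X t)‖ ^ 2 <
        ∑ t, Real.exp (-(C * Real.log L ^ k)) * normSq (X t) :=
      Finset.sum_lt_sum (fun t _ => hle t) ⟨t, mem_univ t, hcon t ht⟩
    rw [← Finset.mul_sum] at hlt
    exact absurd h4 (not_le.2 hlt)
  have hpeps : IsPEPS D (X t) := ⟨fun x i => A x i (t x), hA t⟩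
  have hnr : 0 < nr (X t) := by
    rcases (nr_nonneg (X t)).lt_or_eq with h5 | h5
    · exact h5
    · exfalso
      have := nr_sq (X t)
      rw [← h5] at this
      rw [← this] at ht0
      simp at ht0
  obtain ⟨u1, u2, u3⟩ := unit_of hpeps hnr
  refine ⟨D, _, h1.trans (Real.exp_le_exp.2 hlC), u1, u2, ?_⟩
  rw [u3, le_div_iff₀ hnr]
  apply le_of_sq_le_sq _ (norm_nonneg _)
  refine le_trans ?_ ht
  rw [mul_pow, nr_sq, ← Real.exp_nat_mul]
  refine mul_le_mul_of_nonneg_right (Real.exp_le_exp.2 ?_) ht0.le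
  push_cast
  have h0 : 0 ≤ |C| * Real.log L ^ k := mul_nonneg (abs_nonneg _) hlk
  linarith

/-- quasi-polynomial overlap with an approximable family -/
theorem transfer {Ψ' : ∀ L : ℕ, (Site L → Fin d) → ℂ} (hn : ∃ L₀ : ℕ, ∀ (L : ℕ) [NeZero L],
      L₀ ≤ L → normSq (Ψ L) = 1 ∧ normSq (Ψ' L) = 1)
    (hov : ∃ (k : ℕ) (C : ℝ) (L₀ : ℕ), ∀ (L : ℕ) [NeZero L], L₀ ≤ L →
      Real.exp (-(C * Real.log L ^ k)) ≤ ‖ip (Ψ L) (Ψ' L)‖)
    (hA : ∀ m : ℕ, ∃ k C, Approx Ψ' k C fun L => Real.exp (-(Real.log L ^ m))) :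
    ∃ k C, PureOverlap Ψ k C := by
  obtain ⟨L₁, hL₁⟩ := hn
  obtain ⟨k, C, L₂, hL₂⟩ := hov
  obtain ⟨k', C', L₃, hL₃⟩ := hA (k + 1)
  refine ⟨k' + k, |C'| + |C| + 1, max (⌈Real.exp (|C| + 1)⌉₊ + 3) (max L₁ (max L₂ L₃)), ?_⟩
  intro L _ hL
  simp only [max_le_iff] at hL
  obtain ⟨h3, ha, hb, hc'⟩ := hL
  obtain ⟨hn1, hn2⟩ := hL₁ L ha
  have hov := hL₂ L hb
  obtain ⟨D, ψ, hD, hψ, herr⟩ := hL₃ L hc'
  rw [sqrt_normSq] at herr
  beta_reduce at herr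
  have hL2 : Real.exp (|C| + 1) ≤ L := by
    calc Real.exp (|C| + 1) ≤ ⌈Real.exp (|C| + 1)⌉₊ := Nat.le_ceil _
      _ ≤ L := by
        have : ⌈Real.exp (|C| + 1)⌉₊ ≤ L := by omega
        exact_mod_cast this
  have hl1 : 1 ≤ Real.log L := log_ge_one (by omega)
  have hlC : |C| + 1 ≤ Real.log L :=
    (Real.le_log_iff_exp_le (lt_of_lt_of_le (Real.exp_pos _) hL2)).2 hL2
  generalize Real.log L = l at hl1 hlC hD herr hov ⊢
  have hk1 : 1 ≤ l ^ k := one_le_pow₀ hl1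
  have hk1' : 1 ≤ l ^ k' := one_le_pow₀ hl1
  have hkk : l ^ k ≤ l ^ (k' + k) := pow_le_pow_right₀ hl1 (by omega)
  have hkk' : l ^ k' ≤ l ^ (k' + k) := pow_le_pow_right₀ hl1 (by omega)
  have hC0 := abs_nonneg C
  have hC0' := abs_nonneg C'
  set θ : ℝ := Real.exp (-(|C| * l ^ k)) with hθ
  have hθ0 : 0 < θ := Real.exp_pos _
  have hθ1 : θ ≤ 1 := Real.exp_le_one_iff.2 (by
    have : 0 ≤ |C| * l ^ k := by positivity
    linarith)
  have e1 : Real.exp (-(l ^ (k + 1))) ≤ 2 / 5 * θ := by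
    have h5 : Real.exp (-(l ^ (k + 1))) ≤ Real.exp (-1) * θ := by
      rw [hθ, ← Real.exp_add]
      apply Real.exp_le_exp.2
      have h6 : (|C| + 1) * l ^ k ≤ l * l ^ k := mul_le_mul_of_nonneg_right hlC (by positivity)
      rw [pow_succ]
      linarith
    exact h5.trans (mul_le_mul_of_nonneg_right exp_neg_one_lt hθ0.le)
  have e2 : θ ≤ ‖ip (Ψ L) (Ψ' L)‖ := by
    refine le_trans (Real.exp_le_exp.2 ?_) hov
    have := mul_le_mul_of_nonneg_right (le_abs_self C) (by positivity : (0 : ℝ) ≤ l ^ k)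
    linarith
  have n1 : nr (Ψ L) = 1 := nr_one _ hn1
  have n2 : nr (Ψ' L) = 1 := nr_one _ hn2
  have e3 : ‖ip (Ψ L) (ψ - Ψ' L)‖ ≤ nr (ψ - Ψ' L) := by
    rw [ip_eq]
    refine (norm_inner_le_norm _ _).trans ?_
    have k1 : ‖(WithLp.toLp 2 (Ψ L) : EuclideanSpace ℂ (Site L → Fin d))‖ = 1 := n1
    rw [k1, one_mul]
    exact le_rfl
  have e4 : 3 / 5 * θ ≤ ‖ip (Ψ L) ψ‖ := by
    have h5 : ip (Ψ L) (Ψ' L) = ip (Ψ L) ψ - ip (Ψ L) (ψ - Ψ' L) := by
      rw [ip_eq, ip_eq, ip_eq, ← inner_sub_right, ← WithLp.toLp_sub, sub_sub_cancel]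
    have h6 := norm_sub_le (ip (Ψ L) ψ) (ip (Ψ L) (ψ - Ψ' L))
    rw [← h5] at h6
    linarith
  have e5 : nr ψ ≤ 7 / 5 := by
    have := nr_add (ψ - Ψ' L) (Ψ' L)
    rw [sub_add_cancel] at this
    linarith
  have e6 : 0 < nr ψ := by
    rcases (nr_nonneg ψ).lt_or_eq with h5 | h5
    · exact h5
    · exfalso
      have h6 : ‖ip (Ψ L) ψ‖ ≤ nr (Ψ L) * nr ψ := by
        rw [ip_eq]
        exact norm_inner_le_norm _ _
      rw [← h5, mul_zero] at h6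
      linarith
  obtain ⟨u1, u2, u3⟩ := unit_of hψ e6
  refine ⟨D, _, hD.trans (Real.exp_le_exp.2 ?_), u1, u2, ?_⟩
  · have h5 : C' * l ^ k' ≤ |C'| * l ^ (k' + k) :=
      mul_le_mul (le_abs_self _) hkk' (by positivity) hC0'
    have h6 : 0 ≤ (|C| + 1) * l ^ (k' + k) := by positivity
    linarith
  · rw [u3, le_div_iff₀ e6]
    have h5 : Real.exp (-((|C'| + |C| + 1) * l ^ (k' + k))) ≤ 2 / 5 * θ := by
      have h6 : Real.exp (-((|C'| + |C| + 1) * l ^ (k' + k))) ≤ Real.exp (-1) * θ := by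
        rw [hθ, ← Real.exp_add]
        apply Real.exp_le_exp.2
        have h7 : |C| * l ^ k ≤ |C| * l ^ (k' + k) := mul_le_mul_of_nonneg_left hkk hC0
        have h8 : 0 ≤ |C'| * l ^ (k' + k) := by positivity
        linarith
      exact h6.trans (mul_le_mul_of_nonneg_right exp_neg_one_lt hθ0.le)
    calc Real.exp (-((|C'| + |C| + 1) * l ^ (k' + k))) * nr ψ ≤ 2 / 5 * θ * (7 / 5) :=
          mul_le_mul h5 e5 e6.le (by positivity)
      _ ≤ ‖ip (Ψ L) ψ‖ := by linarith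

end steps

/-- (A) Amplification of overlaps: `C` depends only on `d`, the interaction and the gap.
(B) For every gapped family: the conclusion of the open problem is equivalent to each of the other
six conditions. -/
theorem result :
    (∀ (d R : ℕ) (h : BoxOp d (R + 1)), h.IsHermitian → ∀ Δ : ℝ, 0 < Δ →
      ∃ C : ℝ, 0 < C ∧ ∀ (L : ℕ) [NeZero L], 2 ≤ L → ∀ Ψ : (Site L → Fin d) → ℂ, normSq Ψ = 1 →
        IsGappedGround (ham h L) Δ Ψ → ∀ (D₀ : ℕ) (φ : (Site L → Fin d) → ℂ), IsPEPS D₀ φ →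
        normSq φ = 1 → ∀ η ε : ℝ, 0 < η → η ≤ ‖ip Ψ φ‖ → 0 < ε → ε ≤ 1 →
        ∃ (D : ℕ) (ψ : (Site L → Fin d) → ℂ),
          (D : ℝ) ≤ D₀ * Real.exp (C * (Real.log L + Real.log (1 / (η * ε))) ^ 2) ∧
            IsPEPS D ψ ∧ Real.sqrt (normSq (ψ - Ψ)) ≤ ε) ∧
    (∀ (d R : ℕ) (h : BoxOp d R) (Δ : ℝ) (Ψ : ∀ L : ℕ, (Site L → Fin d) → ℂ),
      GappedFamily h Δ Ψ →
      List.TFAE [
        ∀ c : ℝ, 0 < c → ∃ (k : ℕ) (C : ℝ), Approx Ψ k C fun L => (L : ℝ) ^ (-c),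
        ∃ c : ℝ, 0 < c ∧ ∃ (k : ℕ) (C : ℝ), Approx Ψ k C fun L => (L : ℝ) ^ (-c),
        ∀ m : ℕ, ∃ (k : ℕ) (C : ℝ), Approx Ψ k C fun L => Real.exp (-(Real.log L ^ m)),
        ∃ (k : ℕ) (C : ℝ), PureOverlap Ψ k C,
        ∃ (k : ℕ) (C : ℝ), MixedOverlap Ψ k C,
        ∃ (k : ℕ) (C : ℝ), LowEnergy h Δ Ψ k C,
        ∃ (R' : ℕ) (h' : BoxOp d R') (Δ' : ℝ) (Ψ' : ∀ L : ℕ, (Site L → Fin d) → ℂ),
          GappedFamily h' Δ' Ψ' ∧
          (∀ c : ℝ, 0 < c → ∃ (k : ℕ) (C : ℝ), Approx Ψ' k C fun L => (L : ℝ) ^ (-c)) ∧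
          ∃ (k : ℕ) (C : ℝ) (L₀ : ℕ), ∀ (L : ℕ) [NeZero L], L₀ ≤ L →
            Real.exp (-(C * Real.log L ^ k)) ≤ ‖ip (Ψ L) (Ψ' L)‖]) := by
  refine ⟨?_, ?_⟩
  · intro d R h hh Δ hΔ
    obtain ⟨C, hC, hq⟩ := quant d R h hh Δ hΔ
    refine ⟨C, hC, ?_⟩
    intro L _ hL Ψ hΨ hg D₀ φ hφ hφ1 η ε hη hηφ hε hε1
    obtain ⟨D, ψ, h1, h2, h3⟩ := hq L hL Ψ hΨ hg D₀ φ hφ hφ1 η ε hη hηφ hε hε1
    exact ⟨D, ψ, h1, h2, by rw [sqrt_normSq]; exact h3⟩
  · intro d R h Δ Ψ hF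
    tfae_have 1 → 2 := fun h1 => ⟨1, one_pos, h1 1 one_pos⟩
    tfae_have 2 → 4 := fun ⟨_, hc, _, _, hA⟩ => one_to_pure hF hc hA
    tfae_have 4 → 3 := fun h4 m => pure_to_super hF h4 m
    tfae_have 3 → 1 := fun h3 c _ => super_to_all h3 c
    tfae_have 1 → 6 := fun h1 => all_to_low hF (h1 2 two_pos)
    tfae_have 6 → 5 := fun h6 => low_to_mixed hF h6
    tfae_have 5 → 4 := fun h5 => mixed_to_pure h5
    tfae_have 1 → 7 := by
      intro h1
      refine ⟨R, h, Δ, Ψ, hF, h1, 0, 0, ?_⟩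
      obtain ⟨L₀, hL₀⟩ := hF.ground
      refine ⟨L₀, fun L _ hL => ?_⟩
      rw [ip_self_one (Ψ L) (hL₀ L hL).1]
      simp
    tfae_have 7 → 4 := by
      rintro ⟨R', h', Δ', Ψ', hF', hA, hov⟩
      have h3 : ∀ m : ℕ, ∃ k C, Approx Ψ' k C fun L => Real.exp (-(Real.log L ^ m)) := by
        obtain ⟨k, C, hk⟩ := hA 1 one_pos
        exact fun m => pure_to_super hF' (one_to_pure hF' one_pos hk) m
      obtain ⟨L₁, h1⟩ := hF.ground
      obtain ⟨L₂, h2⟩ := hF'.ground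
      exact transfer (Ψ := Ψ) ⟨max L₁ L₂, fun L _ hL =>
        ⟨(h1 L ((le_max_left _ _).trans hL)).1, (h2 L ((le_max_right _ _).trans hL)).1⟩⟩ hov h3
    tfae_finish

end Pool.Agent.Results.MP_953b23_mp.OverlapBoosting
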