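import Pool.Agent.TH235.PQ.Final

/-!
PEPS approximation of gapped ground states on the torus: all bounds for the bond dimension are
polynomial in `L`, in the inverse error, in the inverse overlap, in `exp β` and in the partition
function `Z_β = Tr exp (-β (H - E_0))`.

Part (A): amplification. If some PEPS of bond dimension `D₀` has overlap at least `η` with the ground
state, then the ground state is approximated within `ε` by a PEPS of bond dimension at most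
`D₀ * exp (C (log L + log (1/(η ε)))) = D₀ (L / (η ε))^C`, where `C` depends only on the local
dimension, the interaction and the gap.

Part (B): there is a PEPS within `ε` of the ground state of bond dimension at most
`exp (C (β + log L + log Z_β + log (1/ε))) = (exp β * L * Z_β / ε)^C`, at any inverse temperature
`β ≥ 0`.

Part (C): if `β ≤ C (log L)^k` and `Z_β ≤ exp (C (log L)^k)` for some `β` (depending on `L`), the
conclusion of the open problem holds with bond dimension `exp (O((log L)^k))`; for `k = 1` the bond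
dimension is polynomial.

Part (D): the same if the number of eigenvalues up to `E_0 + m` is at most `exp (C (m+1) (log L)^k)`
for all `m`.

Part (E): the same if some PEPS of bond dimension `exp (C (log L)^k)` has overlap at least
`exp (-C (log L)^k)` with the ground state.
-/

set_option autoImplicit false

open scoped BigOperators Matrix
open Finset Pool.Agent.TH235.PP Pool.Agent.Results.MP_953b23_mp.OverlapBoosting
  Pool.Agent.Results.MP_953b23_mp.ThermalCriterion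

namespace Pool.Agent.Results.MP_953b23_mp.PolynomialScaling

/-- (A) Amplification of overlaps with a polynomial factor. (B) Bond dimension of the ground state
polynomial in `exp β`, `L`, the partition function and the inverse error. (C), (D), (E)
Consequences for gapped families: small partition functions, few low-lying states, overlaps. -/
theorem result :
    (∀ (d R : ℕ) (h : BoxOp d (R + 1)), h.IsHermitian → ∀ Δ : ℝ, 0 < Δ →
      ∃ C : ℝ, 0 < C ∧ ∀ (L : ℕ) [NeZero L], 2 ≤ L → ∀ Ψ : (Site L → Fin d) → ℂ, normSq Ψ = 1 →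
        IsGappedGround (ham h L) Δ Ψ → ∀ (D₀ : ℕ) (φ : (Site L → Fin d) → ℂ), IsPEPS D₀ φ →
        normSq φ = 1 → ∀ η ε : ℝ, 0 < η → η ≤ ‖ip Ψ φ‖ → 0 < ε → ε ≤ 1 →
        ∃ (D : ℕ) (ψ : (Site L → Fin d) → ℂ),
          (D : ℝ) ≤ D₀ * Real.exp (C * (Real.log L + Real.log (1 / (η * ε)))) ∧
            IsPEPS D ψ ∧ Real.sqrt (normSq (ψ - Ψ)) ≤ ε) ∧
    (∀ (d R : ℕ) (h : BoxOp d (R + 1)), h.IsHermitian → ∀ Δ : ℝ, 0 < Δ →
      ∃ C : ℝ, 0 < C ∧ ∀ (L : ℕ) [NeZero L], 2 ≤ L → ∀ Ψ : (Site L → Fin d) → ℂ, normSq Ψ = 1 →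
        IsGappedGround (ham h L) Δ Ψ → ∀ (hH : (ham h L).IsHermitian) (β ε : ℝ), 0 ≤ β → 0 < ε →
        ε ≤ 1 → ∃ (D : ℕ) (ψ : (Site L → Fin d) → ℂ),
          (D : ℝ) ≤ Real.exp (C * (β + Real.log L +
            Real.log (partition hH (energy (ham h L) Ψ) β) + Real.log (1 / ε))) ∧
            IsPEPS D ψ ∧ Real.sqrt (normSq (ψ - Ψ)) ≤ ε) ∧
    (∀ (d R : ℕ) (h : BoxOp d R) (Δ : ℝ) (Ψ : ∀ L : ℕ, (Site L → Fin d) → ℂ),
      GappedFamily h Δ Ψ → ∀ (k : ℕ) (C : ℝ), 1 ≤ k → SmallPartition h Ψ k C →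
        (∀ c : ℝ, 0 < c → ∃ C' : ℝ, Approx Ψ k C' fun L => (L : ℝ) ^ (-c)) ∧
        ∀ m : ℕ, k ≤ m → ∃ C' : ℝ, Approx Ψ m C' fun L => Real.exp (-(Real.log L ^ m))) ∧
    (∀ (d R : ℕ) (h : BoxOp d R) (Δ : ℝ) (Ψ : ∀ L : ℕ, (Site L → Fin d) → ℂ),
      GappedFamily h Δ Ψ → ∀ (k : ℕ) (C : ℝ), 1 ≤ k → FewStates h Ψ k C →
        (∀ c : ℝ, 0 < c → ∃ C' : ℝ, Approx Ψ k C' fun L => (L : ℝ) ^ (-c)) ∧
        ∀ m : ℕ, k ≤ m → ∃ C' : ℝ, Approx Ψ m C' fun L => Real.exp (-(Real.log L ^ m))) ∧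
    (∀ (d R : ℕ) (h : BoxOp d R) (Δ : ℝ) (Ψ : ∀ L : ℕ, (Site L → Fin d) → ℂ),
      GappedFamily h Δ Ψ → ∀ (k : ℕ) (C : ℝ), 1 ≤ k → PureOverlap Ψ k C →
        (∀ c : ℝ, 0 < c → ∃ C' : ℝ, Approx Ψ k C' fun L => (L : ℝ) ^ (-c)) ∧
        ∀ m : ℕ, k ≤ m → ∃ C' : ℝ, Approx Ψ m C' fun L => Real.exp (-(Real.log L ^ m))) := by
  have hC : ∀ (d R : ℕ) (h : BoxOp d R) (Δ : ℝ) (Ψ : ∀ L : ℕ, (Site L → Fin d) → ℂ),
      GappedFamily h Δ Ψ → ∀ (k : ℕ) (C : ℝ), 1 ≤ k → SmallPartition h Ψ k C →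
        (∀ c : ℝ, 0 < c → ∃ C' : ℝ, Approx Ψ k C' fun L => (L : ℝ) ^ (-c)) ∧
        ∀ m : ℕ, k ≤ m → ∃ C' : ℝ, Approx Ψ m C' fun L =>
          Real.exp (-(Real.log L ^ m)) := by
    intro d R h Δ Ψ hF k C hk hS
    refine ⟨fun c hc => ?_, fun m hm => ?_⟩
    · obtain ⟨C', hC'⟩ := Pool.Agent.TH235.PQ.small_to_approxK Pool.Agent.TH235.PQ.therm0 hF hS k c
        hk le_rfl hc.le
      exact ⟨C', exp_to_rpow' hk hc hC'⟩
    · obtain ⟨C', hC'⟩ := Pool.Agent.TH235.PQ.small_to_approxK Pool.Agent.TH235.PQ.therm0 hF hS m 1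
        (hk.trans hm) hm zero_le_one
      simp only [one_mul] at hC'
      exact ⟨C', hC'⟩
  refine ⟨?_, ?_, hC, ?_, ?_⟩
  · intro d R h hh Δ hΔ
    obtain ⟨C, hC, hq⟩ := Pool.Agent.TH235.PQ.amp_all Pool.Agent.TH235.PQ.amp0 d R h hh Δ hΔ
    refine ⟨C, hC, ?_⟩
    intro L _ hL Ψ hΨ hg D₀ φ hφ hφ1 η ε hη hηφ hε hε1
    obtain ⟨D, ψ, h1, h2, h3⟩ := hq L hL Ψ hΨ hg D₀ φ hφ hφ1 η ε hη hηφ hε hε1
    exact ⟨D, ψ, h1, h2, by rw [sqrt_normSq]; exact h3⟩
  · intro d R h hh Δ hΔ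
    obtain ⟨C, hC, hq⟩ := Pool.Agent.TH235.PQ.therm_all Pool.Agent.TH235.PQ.therm0 d R h hh Δ hΔ
    refine ⟨C, hC, ?_⟩
    intro L _ hL Ψ hΨ hg hH β ε hβ hε hε1
    obtain ⟨D, ψ, h1, h2, h3⟩ := hq L hL Ψ hΨ hg hH β ε hβ hε hε1
    exact ⟨D, ψ, h1, h2, by rw [sqrt_normSq]; exact h3⟩
  · intro d R h Δ Ψ hF k C hk hS
    obtain ⟨C', hC'⟩ := few_to_small hF hS
    exact hC d R h Δ Ψ hF k C' hk hC'
  · intro d R h Δ Ψ hF k C hk hP
    refine ⟨fun c hc => ?_, fun m hm => ?_⟩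
    · obtain ⟨C', hC'⟩ := Pool.Agent.TH235.PQ.pure_to_superK Pool.Agent.TH235.PQ.amp0 hF hP k c
        hk le_rfl hc.le
      exact ⟨C', exp_to_rpow' hk hc hC'⟩
    · obtain ⟨C', hC'⟩ := Pool.Agent.TH235.PQ.pure_to_superK Pool.Agent.TH235.PQ.amp0 hF hP m 1
        (hk.trans hm) hm zero_le_one
      simp only [one_mul] at hC'
      exact ⟨C', hC'⟩

end Pool.Agent.Results.MP_953b23_mp.PolynomialScaling
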